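import Pool.Agent.L7h35.PC5.Stm

/-!
# Project PX, part K4: a union of disjoint `K_4` is in a perfect class
-/

set_option autoImplicit false

namespace Pool.Agent.L7h12.PC5

open Pool.Agent.L7h35.PC5

/-- a graph in which `x`, `y` are adjacent iff they are in the same block and of different classes -/
theorem key {V : Type} [Finite V] (G : SimpleGraph V) (b c : V → ℕ)
    (h : ∀ x y, G.Adj x y ↔ b x = b y ∧ c x ≠ c y) :
    G.chromaticNumber = (G.cliqueNum : ℕ∞) := by
  classical
  have := Fintype.ofFinite V
  let C : ℕ → Finset ℕ := fun β => (Finset.univ.filter (fun x => b x = β)).image c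
  have hC : ∀ β, (C β).card ≤ G.cliqueNum := by
    intro β
    have hex : ∀ v : {v // v ∈ C β}, ∃ x, b x = β ∧ c x = v.1 := by
      rintro ⟨v, hv⟩
      simp only [C, Finset.mem_image, Finset.mem_filter, Finset.mem_univ, true_and] at hv
      exact hv
    choose r hr1 hr2 using hex
    have hinj : Function.Injective r := by
      intro v w hvw
      apply Subtype.ext
      rw [← hr2 v, ← hr2 w, hvw]
    let s : Finset V := Finset.univ.image r
    have hs : s.card = (C β).card := by
      rw [Finset.card_image_of_injective _ hinj, Finset.card_univ, Fintype.card_coe]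
    have hcl : G.IsClique (s : Set V) := by
      intro x hx y hy hxy
      simp only [s, Finset.coe_image, Finset.coe_univ, Set.image_univ, Set.mem_range] at hx hy
      obtain ⟨v, rfl⟩ := hx
      obtain ⟨w, rfl⟩ := hy
      rw [h]
      refine ⟨by rw [hr1, hr1], ?_⟩
      rw [hr2, hr2]
      intro hvw
      exact hxy (by rw [Subtype.ext hvw])
    rw [← hs]
    exact hcl.card_le_cliqueNum
  apply le_antisymm
  · have hcol : G.Colorable G.cliqueNum := by
      refine ⟨SimpleGraph.Coloring.mk
        (fun x => (⟨((C (b x)).filter (· < c x)).card, ?_⟩ : Fin G.cliqueNum)) ?_⟩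
      · refine lt_of_lt_of_le ?_ (hC (b x))
        apply Finset.card_lt_card
        rw [Finset.filter_ssubset]
        refine ⟨c x, ?_, lt_irrefl _⟩
        simp only [C, Finset.mem_image, Finset.mem_filter, Finset.mem_univ, true_and]
        exact ⟨x, rfl, rfl⟩
      · have hlt : ∀ x y, b x = b y → c x < c y →
            ((C (b x)).filter (· < c x)).card < ((C (b y)).filter (· < c y)).card := by
          intro x y hb hc
          rw [hb]
          apply Finset.card_lt_card
          rw [Finset.ssubset_iff_of_subset]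
          · refine ⟨c x, ?_, ?_⟩
            · rw [Finset.mem_filter]
              refine ⟨?_, hc⟩
              simp only [C, Finset.mem_image, Finset.mem_filter, Finset.mem_univ, true_and]
              exact ⟨x, hb, rfl⟩
            · simp
          · intro z hz
            rw [Finset.mem_filter] at hz ⊢
            exact ⟨hz.1, hz.2.trans hc⟩
        intro x y hxy heq
        rw [h] at hxy
        have heq' : ((C (b x)).filter (· < c x)).card = ((C (b y)).filter (· < c y)).card :=
          congrArg Fin.val heq
        rcases lt_or_gt_of_ne hxy.2 with h1 | h1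
        · have := hlt x y hxy.1 h1
          omega
        · have := hlt y x hxy.1.symm h1
          omega
    exact hcol.chromaticNumber_le
  · obtain ⟨s, hs⟩ := G.exists_isNClique_cliqueNum
    rw [← hs.card_eq]
    exact hs.isClique.card_le_chromaticNumber

theorem four : ∀ a b a' b' : Fin 4, a ≠ b → a' ≠ b' →
    (a.val ^^^ b.val ≠ a'.val ^^^ b'.val) → a = a' ∨ a = b' ∨ b = a' ∨ b = b' := by
  decide

theorem four' (a b a' b' : ℕ) (h0 : a % 4 ≠ b % 4) (h1 : a' % 4 ≠ b' % 4)
    (h : (a % 4) ^^^ (b % 4) ≠ (a' % 4) ^^^ (b' % 4)) :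
    a % 4 = a' % 4 ∨ a % 4 = b' % 4 ∨ b % 4 = a' % 4 ∨ b % 4 = b' % 4 := by
  have := four ⟨a % 4, Nat.mod_lt _ (by norm_num)⟩ ⟨b % 4, Nat.mod_lt _ (by norm_num)⟩
    ⟨a' % 4, Nat.mod_lt _ (by norm_num)⟩ ⟨b' % 4, Nat.mod_lt _ (by norm_num)⟩
    (by intro he; exact h0 (congrArg Fin.val he)) (by intro he; exact h1 (congrArg Fin.val he)) h
  simpa [Fin.ext_iff] using this

theorem s_K4 : S_K4 := by
  classical
  intro n T hT
  have hex : ∀ e : T, ∃ p : Fin n × Fin n, p.1 ≠ p.2 ∧ e.1.1 = {p.1, p.2} := by
    intro e
    obtain ⟨u, v, huv, he⟩ := Finset.card_eq_two.mp e.1.2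
    exact ⟨(u, v), huv, he⟩
  choose p hp1 hp2 using hex
  have hbl : ∀ e : T, (p e).1.val / 4 = (p e).2.val / 4 := by
    intro e
    refine hT e.1 e.2 _ ?_ _ ?_
    · rw [hp2 e]; simp
    · rw [hp2 e]; simp
  have hne : ∀ e : T, (p e).1.val % 4 ≠ (p e).2.val % 4 := by
    intro e he
    apply hp1 e
    apply Fin.ext
    have := hbl e
    omega
  refine key _ (fun e : T => (p e).1.val / 4)
    (fun e : T => ((p e).1.val % 4) ^^^ ((p e).2.val % 4)) ?_
  intro e f
  have hadj : ((L n).induce T).Adj e f ↔ (e.1 ≠ f.1 ∧ (e.1.1 ∩ f.1.1).Nonempty) := Iff.rfl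
  rw [hadj]
  have e1 := hp2 e
  have e2 := hp2 f
  have b1 := hbl e
  have b2 := hbl f
  have n1 := hne e
  have n2 := hne f
  have hval : (e.1 ≠ f.1) ↔ (e.1.1 ≠ f.1.1) := by
    rw [Ne, Ne, Subtype.ext_iff]
  rw [hval, e1, e2]
  generalize (p e).1 = u at *
  generalize (p e).2 = v at *
  generalize (p f).1 = u' at *
  generalize (p f).2 = v' at *
  constructor
  · rintro ⟨h1, w, hw⟩
    simp only [Finset.mem_inter, Finset.mem_insert, Finset.mem_singleton] at hw
    obtain ⟨hw1, hw2⟩ := hw
    rcases hw1 with rfl | rfl <;> rcases hw2 with h2 | h2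
    · subst h2
      refine ⟨rfl, fun hx => h1 ?_⟩
      have h3 := Nat.xor_right_injective hx
      have : v = v' := Fin.ext (by omega)
      rw [this]
    · subst h2
      refine ⟨by omega, fun hx => h1 ?_⟩
      rw [Nat.xor_comm (u'.val % 4)] at hx
      have h3 := Nat.xor_right_injective hx
      have : v = u' := Fin.ext (by omega)
      rw [this, Finset.pair_comm]
    · subst h2
      refine ⟨by omega, fun hx => h1 ?_⟩
      rw [Nat.xor_comm (u.val % 4)] at hx
      have h3 := Nat.xor_right_injective hx
      have : u = v' := Fin.ext (by omega)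
      rw [this, Finset.pair_comm]
    · subst h2
      refine ⟨by omega, fun hx => h1 ?_⟩
      have h3 := Nat.xor_left_injective hx
      have : u = u' := Fin.ext (by omega)
      rw [this]
  · rintro ⟨h1, h2⟩
    refine ⟨?_, ?_⟩
    · intro hs
      have hu : u = u' ∨ u = v' := by
        have : u ∈ ({u', v'} : Finset (Fin n)) := by rw [← hs]; simp
        simpa using this
      have hv : v = u' ∨ v = v' := by
        have : v ∈ ({u', v'} : Finset (Fin n)) := by rw [← hs]; simp
        simpa using this
      have huv : u ≠ v := by rintro rfl; exact n1 rfl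
      rcases hu with rfl | rfl <;> rcases hv with rfl | rfl
      · exact huv rfl
      · exact h2 rfl
      · exact h2 (Nat.xor_comm _ _)
      · exact huv rfl
    · rcases four' _ _ _ _ n1 n2 h2 with h3 | h3 | h3 | h3
      · have : u = u' := Fin.ext (by omega)
        exact ⟨u, by simp [this]⟩
      · have : u = v' := Fin.ext (by omega)
        exact ⟨u, by simp [this]⟩
      · have : v = u' := Fin.ext (by omega)
        exact ⟨v, by simp [this]⟩
      · have : v = v' := Fin.ext (by omega)
        exact ⟨v, by simp [this]⟩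

end Pool.Agent.L7h12.PC5
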